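import Mathlib
import Pool.Agent.U447.KS

set_option autoImplicit false

namespace Pool.Agent.Results.MP_c25521_co.SmallOrder

/-- The Klein-Schönheim conjecture for graphs of small order: with
`f = ∑ m i + ⌊(1 + √(1 + 8 ∑_{i<j} m i * m j)) / 2⌋`, every union of `m i`-degenerate graphs
(`i < s`) on a common vertex set of at most `3 f - 2 ∑ m i` vertices is `f`-colourable. -/
theorem result :
    ∀ (s : ℕ) (m : Fin s → ℕ) (V : Type) [Fintype V] (G : Fin s → SimpleGraph V),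
      (∀ i : Fin s, ∀ S : Finset V, S.Nonempty →
          ∃ v ∈ S, ∀ T : Finset V, T ⊆ S → (∀ w ∈ T, (G i).Adj v w) → T.card ≤ m i) →
      Fintype.card V + 2 * ∑ i, m i ≤ 3 * (∑ i, m i +
          ⌊(1 + Real.sqrt (1 + 8 * (((∑ i : Fin s, ∑ j ∈ Finset.Ioi i, m i * m j : ℕ)) : ℝ))) / 2⌋₊) →
      (⨆ i, G i).Colorable
        (∑ i, m i +
          ⌊(1 + Real.sqrt (1 + 8 * (((∑ i : Fin s, ∑ j ∈ Finset.Ioi i, m i * m j : ℕ)) : ℝ))) / 2⌋₊) := by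
  intro s m V _ G hD hle
  set E : ℕ := ∑ i : Fin s, ∑ j ∈ Finset.Ioi i, m i * m j with hE
  refine Pool.Agent.U447.KS.key m _ ⌊(1 + Real.sqrt (1 + 8 * (E : ℝ))) / 2⌋₊ rfl ?_
    (Fintype.card V) V G rfl hD hle
  rw [← hE]
  have h1 := Nat.lt_floor_add_one ((1 + Real.sqrt (1 + 8 * (E : ℝ))) / 2)
  set r : ℕ := ⌊(1 + Real.sqrt (1 + 8 * (E : ℝ))) / 2⌋₊ with hr
  have h2 : Real.sqrt (1 + 8 * (E : ℝ)) < 2 * (r : ℝ) + 1 := by linarith
  have h3 : 1 + 8 * (E : ℝ) < (2 * (r : ℝ) + 1) ^ 2 := by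
    rw [Real.sqrt_lt' (by positivity)] at h2
    exact h2
  have h4 : (2 * E : ℝ) < r * (r + 1) := by nlinarith
  exact_mod_cast h4

end Pool.Agent.Results.MP_c25521_co.SmallOrder
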